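import Mathlib

/-!
# At least logarithmically many composite integer parts of powers of 4/3

Let `a_n = ⌊(4/3)^n⌋`.  For every `n ≥ 7` some `m ≥ n` with `3^m ≤ 6 * 4^(n+10)`
(so `m ≤ (log 4 / log 3) n + 15 = 1.2618.. n + 15`) has `a_m` composite, in fact divisible by
`2`, `3` or `5`.  Hence the number `C(N)` of `n ≤ N` with `a_n` composite is more than
`log N / log 2 - 6`.
-/

set_option autoImplicit false

namespace Pool.Agent.Results.MP_39b49d_nt.LogManyComposites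

/-- the integer part of `(4/3)^n`, as a quotient of naturals -/
def A (n : ℕ) : ℕ := 4 ^ n / 3 ^ n

/-- the remainder -/
def R (n : ℕ) : ℕ := 4 ^ n % 3 ^ n

/-- not divisible by 2, 3, 5 -/
def Good (n : ℕ) : Prop := A n % 2 ≠ 0 ∧ A n % 3 ≠ 0 ∧ A n % 5 ≠ 0

lemma R_lt (n : ℕ) : R n < 3 ^ n := Nat.mod_lt _ (by positivity)

lemma AR (n : ℕ) : 3 ^ n * A n + R n = 4 ^ n := Nat.div_add_mod _ _

lemma step (m : ℕ) (h0 : Good m) (h1 : Good (m + 1)) :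
    (3 * A (m + 1) = 4 * A m + 1 ∧ R (m + 1) + 3 ^ m = 4 * R m) ∨
    (3 * A (m + 1) + 1 = 4 * A m ∧ R (m + 1) = 4 * R m + 3 ^ m) := by
  have e0 := AR m
  have e1 := AR (m + 1)
  have l0 := R_lt m
  have l1 := R_lt (m + 1)
  have hT : 0 < 3 ^ m := by positivity
  rw [pow_succ, pow_succ] at e1
  rw [pow_succ] at l1
  obtain ⟨a0, b0, c0⟩ := h0
  obtain ⟨a1, b1, c1⟩ := h1
  generalize hx : (3:ℕ) ^ m = T at *
  generalize hy : A m = a at *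
  generalize hy' : A (m + 1) = a' at *
  generalize hr : R m = r at *
  generalize hr' : R (m + 1) = r' at *
  have key : (T : ℤ) * (3 * a' - 4 * a) = 4 * r - r' := by
    have e0' : (T : ℤ) * a + r = 4 ^ m := by exact_mod_cast e0
    have e1' : (T : ℤ) * 3 * a' + r' = 4 ^ m * 4 := by exact_mod_cast e1
    linear_combination e1' - 4 * e0'
  have hTz : (0:ℤ) < T := by exact_mod_cast hT
  have h1 : (-3 : ℤ) < 3 * a' - 4 * a := by
    by_contra hc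
    push Not at hc
    have : (T : ℤ) * (3 * a' - 4 * a) ≤ T * (-3) := by nlinarith
    omega
  have h2 : (3 * a' - 4 * a : ℤ) < 4 := by
    by_contra hc
    push Not at hc
    have : (T : ℤ) * 4 ≤ (T : ℤ) * (3 * a' - 4 * a) := by nlinarith
    omega
  have h3 : (3 * a' - 4 * a : ℤ) = 1 ∨ (3 * a' - 4 * a : ℤ) = -1 := by omega
  rcases h3 with h3 | h3
  · left
    rw [h3] at key
    constructor <;> omega
  · right
    rw [h3] at key
    constructor <;> omega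

lemma st1 (m : ℕ) (h : A m % 5 = 1) (h0 : Good m) (h1 : Good (m + 1)) (h2 : Good (m + 2))
    (h3 : Good (m + 3)) : False := by
  have s0 := step m h0 h1
  have s1 := step (m + 1) h1 h2
  have s2 := step (m + 2) h2 h3
  have l3 := R_lt (m + 3)
  have q1 : (3:ℕ) ^ (m + 1) = 3 * 3 ^ m := by ring
  have q2 : (3:ℕ) ^ (m + 2) = 9 * 3 ^ m := by ring
  have q3 : (3:ℕ) ^ (m + 3) = 27 * 3 ^ m := by ring
  have hT : 0 < 3 ^ m := by positivity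
  rw [q1] at s1
  rw [q2] at s2
  rw [q3] at l3
  simp only [Good] at h1 h2 h3
  rw [show m + 1 + 1 = m + 2 from rfl] at s1
  rw [show m + 2 + 1 = m + 3 from rfl] at s2
  omega

lemma st4 (m : ℕ) (h : A m % 5 = 4) (h0 : Good m) (h1 : Good (m + 1)) :
    A (m + 1) % 5 = 4 ∧ 3 * (A (m + 1) + 1) = 4 * (A m + 1) := by
  have s0 := step m h0 h1
  simp only [Good] at h1
  omega

lemma two_step (t : ℕ) (h : A t % 5 = 2) (hn : A (t + 1) % 5 ≠ 4) (h0 : Good t)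
    (h1 : Good (t + 1)) (h2 : Good (t + 2)) (h3 : Good (t + 3)) (h4 : Good (t + 4))
    (h5 : Good (t + 5)) :
    A (t + 2) % 5 = 2 ∧ R (t + 2) + 3 ^ t = 16 * R t ∧ 3 ^ t ≤ 4 * R t := by
  have s0 := step t h0 h1
  have s1 := step (t + 1) h1 h2
  have q1 : (3:ℕ) ^ (t + 1) = 3 * 3 ^ t := by ring
  rw [q1] at s1
  rw [show t + 1 + 1 = t + 2 from rfl] at s1
  have hne : A (t + 2) % 5 ≠ 1 := fun hh => st1 (t + 2) hh h2 h3 h4 h5
  simp only [Good] at h1 h2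
  omega

lemma from2 (t : ℕ) (h : A t % 5 = 2) (hg : ∀ i, i ≤ 11 → Good (t + i)) :
    ∃ k, k ≤ 8 ∧ A (t + k) % 5 = 4 := by
  by_contra hc
  push Not at hc
  have g : ∀ i, i ≤ 11 → Good (t + i) := hg
  have a0 := two_step t h (hc 1 (by omega)) (g 0 (by omega)) (g 1 (by omega)) (g 2 (by omega))
    (g 3 (by omega)) (g 4 (by omega)) (g 5 (by omega))
  have a2 := two_step (t + 2) a0.1 (hc 3 (by omega)) (g 2 (by omega)) (g 3 (by omega))
    (g 4 (by omega)) (g 5 (by omega)) (g 6 (by omega)) (g 7 (by omega))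
  have a4 := two_step (t + 4) a2.1 (hc 5 (by omega)) (g 4 (by omega)) (g 5 (by omega))
    (g 6 (by omega)) (g 7 (by omega)) (g 8 (by omega)) (g 9 (by omega))
  have a6 := two_step (t + 6) a4.1 (hc 7 (by omega)) (g 6 (by omega)) (g 7 (by omega))
    (g 8 (by omega)) (g 9 (by omega)) (g 10 (by omega)) (g 11 (by omega))
  have l8 := R_lt (t + 8)
  have q2 : (3:ℕ) ^ (t + 2) = 9 * 3 ^ t := by ring
  have q4 : (3:ℕ) ^ (t + 4) = 81 * 3 ^ t := by ring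
  have q6 : (3:ℕ) ^ (t + 6) = 729 * 3 ^ t := by ring
  have q8 : (3:ℕ) ^ (t + 8) = 6561 * 3 ^ t := by ring
  have hT : 0 < 3 ^ t := by positivity
  obtain ⟨-, u0, v0⟩ := a0
  obtain ⟨-, u2, -⟩ := a2
  obtain ⟨-, u4, -⟩ := a4
  obtain ⟨-, u6, -⟩ := a6
  rw [show t + 2 + 2 = t + 4 from rfl, q2] at u2
  rw [show t + 4 + 2 = t + 6 from rfl, q4] at u4
  rw [show t + 6 + 2 = t + 8 from rfl, q6] at u6
  rw [q8] at l8
  omega

lemma reach (t : ℕ) (g : ∀ i, i ≤ 12 → Good (t + i)) :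
    ∃ k, k ≤ 9 ∧ A (t + k) % 5 = 4 := by
  have g0 := g 0 (by omega)
  have g1 := g 1 (by omega)
  have hn0 : A t % 5 ≠ 0 := g0.2.2
  have hcase : A t % 5 = 1 ∨ A t % 5 = 2 ∨ A t % 5 = 3 ∨ A t % 5 = 4 := by omega
  rcases hcase with h | h | h | h
  · exact (st1 t h g0 g1 (g 2 (by omega)) (g 3 (by omega))).elim
  · obtain ⟨k, hk, hk'⟩ := from2 t h (fun i hi => g i (by omega))
    exact ⟨k, by omega, hk'⟩
  · have s := step t g0 g1
    have hne : A (t + 1) % 5 ≠ 1 := fun hh =>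
      st1 (t + 1) hh g1 (g 2 (by omega)) (g 3 (by omega)) (g 4 (by omega))
    have h2 : A (t + 1) % 5 = 2 := by omega
    obtain ⟨k, hk, hk'⟩ := from2 (t + 1) h2 (fun i hi => by
      have := g (i + 1) (by omega)
      rwa [show t + 1 + i = t + (i + 1) by omega])
    exact ⟨k + 1, by omega, by rwa [show t + (k + 1) = t + 1 + k by omega]⟩
  · exact ⟨0, by omega, h⟩

lemma run (n1 : ℕ) (h : A n1 % 5 = 4) (j : ℕ) (g : ∀ i, i ≤ j → Good (n1 + i)) :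
    A (n1 + j) % 5 = 4 ∧ 3 ^ j * (A (n1 + j) + 1) = 4 ^ j * (A n1 + 1) := by
  induction j with
  | zero => simp [h]
  | succ j ih =>
    obtain ⟨i1, i2⟩ := ih (fun i hi => g i (by omega))
    obtain ⟨s1, s2⟩ := st4 (n1 + j) i1 (g j (by omega)) (g (j + 1) (by omega))
    refine ⟨s1, ?_⟩
    rw [show n1 + (j + 1) = n1 + j + 1 from rfl]
    calc 3 ^ (j + 1) * (A (n1 + j + 1) + 1) = 3 ^ j * (3 * (A (n1 + j + 1) + 1)) := by ring
      _ = 3 ^ j * (4 * (A (n1 + j) + 1)) := by rw [s2]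
      _ = 4 * (3 ^ j * (A (n1 + j) + 1)) := by ring
      _ = 4 * (4 ^ j * (A n1 + 1)) := by rw [i2]
      _ = 4 ^ (j + 1) * (A n1 + 1) := by ring

lemma not_all_good (n N : ℕ) (hN : n + 12 ≤ N) (hbig : 2 * 4 ^ (n + 10) < 3 ^ N)
    (g : ∀ m, n ≤ m → m ≤ N → Good m) : False := by
  obtain ⟨k, hk, h4⟩ := reach n (fun i hi => g (n + i) (by omega) (by omega))
  obtain ⟨j, hj⟩ : ∃ j, N = n + k + j := ⟨N - (n + k), by omega⟩
  obtain ⟨-, hr⟩ := run (n + k) h4 j (fun i hi => g _ (by omega) (by omega))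
  have hdvd : 3 ^ j ∣ 4 ^ j * (A (n + k) + 1) := ⟨_, hr.symm⟩
  have hcop : Nat.Coprime (3 ^ j) (4 ^ j) := Nat.Coprime.pow _ _ (by norm_num)
  have hle : 3 ^ j ≤ A (n + k) + 1 :=
    Nat.le_of_dvd (by omega) (hcop.dvd_of_dvd_mul_left hdvd)
  have e := AR (n + k)
  have h34 : (3:ℕ) ^ (n + k) ≤ 4 ^ (n + k) := Nat.pow_le_pow_left (by norm_num) _
  have hmono : (4:ℕ) ^ (n + k) ≤ 4 ^ (n + 10) := Nat.pow_le_pow_right (by norm_num) (by omega)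
  have : (3:ℕ) ^ N ≤ 2 * 4 ^ (n + 10) := by
    rw [hj, pow_add]
    calc 3 ^ (n + k) * 3 ^ j ≤ 3 ^ (n + k) * (A (n + k) + 1) := Nat.mul_le_mul_left _ hle
      _ = 3 ^ (n + k) * A (n + k) + 3 ^ (n + k) := by ring
      _ ≤ 4 ^ (n + k) + 4 ^ (n + k) := by omega
      _ ≤ 2 * 4 ^ (n + 10) := by omega
  omega

lemma A_eq_floor (n : ℕ) : ⌊((4 : ℝ) / 3) ^ n⌋₊ = A n := by
  have : ((4 : ℝ) / 3) ^ n = ((4 ^ n : ℕ) : ℝ) / ((3 ^ n : ℕ) : ℝ) := by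
    rw [div_pow]; push_cast; rfl
  rw [this, Nat.floor_div_eq_div]
  rfl

lemma A_ge (n : ℕ) (hn : 7 ≤ n) : 7 ≤ A n := by
  have h7 : A 7 = 7 := by decide
  rw [← h7, ← A_eq_floor, ← A_eq_floor]
  exact Nat.floor_le_floor (pow_le_pow_right₀ (by norm_num) hn)

lemma exists_composite (n : ℕ) (hn : 7 ≤ n) :
    ∃ m : ℕ, n ≤ m ∧ 3 ^ m ≤ 6 * 4 ^ (n + 10) ∧ 7 ≤ A m ∧ (2 ∣ A m ∨ 3 ∣ A m ∨ 5 ∣ A m) := by
  by_contra hc
  push Not at hc
  have hpos : 6 * 4 ^ (n + 10) ≠ 0 := by positivity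
  set N := Nat.log 3 (6 * 4 ^ (n + 10)) with hNdef
  have hN1 : 3 ^ N ≤ 6 * 4 ^ (n + 10) := Nat.pow_log_le_self 3 hpos
  have hN2 : 6 * 4 ^ (n + 10) < 3 ^ (N + 1) := Nat.lt_pow_succ_log_self (by norm_num) _
  have hN3 : n + 12 ≤ N := by
    rw [hNdef]
    apply Nat.le_log_of_pow_le (by norm_num)
    have h34 : (3:ℕ) ^ n ≤ 4 ^ n := Nat.pow_le_pow_left (by norm_num) _
    calc (3:ℕ) ^ (n + 12) = 531441 * 3 ^ n := by ring
      _ ≤ 6291456 * 4 ^ n := by omega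
      _ = 6 * 4 ^ (n + 10) := by ring
  apply not_all_good n N hN3
  · have h3 : (3:ℕ) ^ (N + 1) = 3 * 3 ^ N := by ring
    rw [h3] at hN2; omega
  · intro m h1 h2
    have h3 : 3 ^ m ≤ 6 * 4 ^ (n + 10) :=
      le_trans (Nat.pow_le_pow_right (by norm_num) h2) hN1
    have := hc m h1 h3 (A_ge m (by omega))
    refine ⟨?_, ?_, ?_⟩ <;> omega

lemma st4R (m : ℕ) (h : A m % 5 = 4) (h0 : Good m) (h1 : Good (m + 1)) :
    A (m + 1) % 5 = 4 ∧ R (m + 1) + 3 ^ m = 4 * R m := by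
  have s0 := step m h0 h1
  simp only [Good] at h1
  omega

lemma runR (n1 : ℕ) (h : A n1 % 5 = 4) (j : ℕ) (g : ∀ i, i ≤ j → Good (n1 + i)) :
    A (n1 + j) % 5 = 4 ∧
      (3:ℤ) ^ (n1 + j) - R (n1 + j) = 4 ^ j * ((3:ℤ) ^ n1 - R n1) := by
  induction j with
  | zero => simp [h]
  | succ j ih =>
    obtain ⟨i1, i2⟩ := ih (fun i hi => g i (by omega))
    obtain ⟨s1, s2⟩ := st4R (n1 + j) i1 (g j (by omega)) (g (j + 1) (by omega))
    refine ⟨s1, ?_⟩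
    have s2' : (R (n1 + j + 1) : ℤ) + 3 ^ (n1 + j) = 4 * R (n1 + j) := by exact_mod_cast s2
    rw [show n1 + (j + 1) = n1 + j + 1 from rfl]
    calc (3:ℤ) ^ (n1 + j + 1) - R (n1 + j + 1) = 4 * ((3:ℤ) ^ (n1 + j) - R (n1 + j)) := by
          linear_combination (-1 : ℤ) * s2'
      _ = 4 ^ (j + 1) * ((3:ℤ) ^ n1 - R n1) := by rw [i2]; ring

lemma fract_eq (n : ℕ) : Int.fract (((4 : ℝ) / 3) ^ n) = (R n : ℝ) / 3 ^ n := by
  have h3 : (0:ℝ) < 3 ^ n := by positivity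
  rw [Int.fract_eq_iff]
  have hR : (R n : ℝ) < 3 ^ n := by exact_mod_cast R_lt n
  refine ⟨by positivity, by rw [div_lt_one h3]; exact hR, (A n : ℤ), ?_⟩
  have e : (3:ℝ) ^ n * A n + R n = 4 ^ n := by exact_mod_cast AR n
  rw [div_pow]
  field_simp
  push_cast
  linarith

lemma near (n L : ℕ) (g : ∀ i, i ≤ L + 12 → Good (n + i)) :
    1 - ((3 : ℝ) / 4) ^ L ≤ Int.fract (((4 : ℝ) / 3) ^ (n + 9)) := by
  obtain ⟨k, hk, h4⟩ := reach n (fun i hi => g i (by omega))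
  obtain ⟨h9, -⟩ := runR (n + k) h4 (9 - k) (fun i hi => by
    have := g (k + i) (by omega)
    rwa [show n + k + i = n + (k + i) by omega])
  rw [show n + k + (9 - k) = n + 9 by omega] at h9
  obtain ⟨-, hr⟩ := runR (n + 9) h9 (L + 3) (fun i hi => by
    have := g (9 + i) (by omega)
    rwa [show n + 9 + i = n + (9 + i) by omega])
  rw [fract_eq]
  have h3 : (0:ℝ) < 3 ^ (n + 9) := by positivity
  have hr' : (3:ℝ) ^ (n + 9 + (L + 3)) - R (n + 9 + (L + 3)) =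
      4 ^ (L + 3) * ((3:ℝ) ^ (n + 9) - R (n + 9)) := by exact_mod_cast hr
  have hle : (4:ℝ) ^ (L + 3) * ((3:ℝ) ^ (n + 9) - R (n + 9)) ≤ 3 ^ (n + 9) * 3 ^ (L + 3) := by
    rw [← hr', pow_add 3 (n + 9) (L + 3)]
    have : (0:ℝ) ≤ R (n + 9 + (L + 3)) := by positivity
    linarith
  have h4p : (0:ℝ) < 4 ^ (L + 3) := by positivity
  have h5 : (3:ℝ) ^ (n + 9) - R (n + 9) ≤ 3 ^ (n + 9) * ((3:ℝ) / 4) ^ (L + 3) := by
    rw [div_pow, mul_div_assoc', le_div_iff₀ h4p]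
    linarith
  have h6 : ((3:ℝ) / 4) ^ (L + 3) ≤ (3 / 4) ^ L :=
    pow_le_pow_of_le_one (by norm_num) (by norm_num) (by omega)
  rw [le_div_iff₀ h3]
  nlinarith

lemma composite_or_near (n L : ℕ) (hn : 7 ≤ n) :
    1 - ((3 : ℝ) / 4) ^ L ≤ Int.fract (((4 : ℝ) / 3) ^ (n + 9)) ∨
    ∃ m, n ≤ m ∧ m ≤ n + (L + 12) ∧ 1 < ⌊((4 : ℝ) / 3) ^ m⌋₊ ∧ ¬ (⌊((4 : ℝ) / 3) ^ m⌋₊).Prime := by
  by_cases h : ∀ i, i ≤ L + 12 → Good (n + i)
  · exact Or.inl (near n L h)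
  · right
    push Not at h
    obtain ⟨i, hi, hb⟩ := h
    refine ⟨n + i, by omega, by omega, ?_⟩
    have h7 := A_ge (n + i) (by omega)
    rw [A_eq_floor]
    refine ⟨by omega, fun hp => hb ?_⟩
    refine ⟨fun hm => ?_, fun hm => ?_, fun hm => ?_⟩
    · rcases (Nat.dvd_prime hp).1 (Nat.dvd_of_mod_eq_zero hm) with h | h <;> omega
    · rcases (Nat.dvd_prime hp).1 (Nat.dvd_of_mod_eq_zero hm) with h | h <;> omega
    · rcases (Nat.dvd_prime hp).1 (Nat.dvd_of_mod_eq_zero hm) with h | h <;> omega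

lemma count (L N : ℕ) :
    N ≤ 6 + ((Finset.Icc 1 (N + 9)).filter
        (fun n : ℕ => 1 - ((3 : ℝ) / 4) ^ L ≤ Int.fract (((4 : ℝ) / 3) ^ n))).card +
      (L + 13) * ((Finset.Icc 1 (N + (L + 12))).filter
        (fun n : ℕ => 1 < ⌊((4 : ℝ) / 3) ^ n⌋₊ ∧ ¬ (⌊((4 : ℝ) / 3) ^ n⌋₊).Prime)).card := by
  classical
  set P : Finset ℕ := (Finset.Icc 1 (N + 9)).filter
        (fun n : ℕ => 1 - ((3 : ℝ) / 4) ^ L ≤ Int.fract (((4 : ℝ) / 3) ^ n)) with hP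
  set S : Finset ℕ := (Finset.Icc 1 (N + (L + 12))).filter
        (fun n : ℕ => 1 < ⌊((4 : ℝ) / 3) ^ n⌋₊ ∧ ¬ (⌊((4 : ℝ) / 3) ^ n⌋₊).Prime) with hS
  have hsub : Finset.Icc 7 N ⊆
      P.image (fun n => n - 9) ∪ S.biUnion (fun m => Finset.Icc (m - (L + 12)) m) := by
    intro n hn
    rw [Finset.mem_Icc] at hn
    rw [Finset.mem_union]
    rcases composite_or_near n L hn.1 with h | ⟨m, h1, h2, h3, h4⟩
    · left
      rw [Finset.mem_image]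
      refine ⟨n + 9, ?_, by omega⟩
      rw [hP, Finset.mem_filter, Finset.mem_Icc]
      exact ⟨⟨by omega, by omega⟩, h⟩
    · right
      rw [Finset.mem_biUnion]
      refine ⟨m, ?_, ?_⟩
      · rw [hS, Finset.mem_filter, Finset.mem_Icc]
        exact ⟨⟨by omega, by omega⟩, h3, h4⟩
      · rw [Finset.mem_Icc]; omega
  have hc := Finset.card_le_card hsub
  have hu := Finset.card_union_le (P.image (fun n => n - 9))
    (S.biUnion (fun m => Finset.Icc (m - (L + 12)) m))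
  have hi : (P.image (fun n => n - 9)).card ≤ P.card := Finset.card_image_le
  have hb : (S.biUnion (fun m => Finset.Icc (m - (L + 12)) m)).card ≤ S.card * (L + 13) := by
    apply Finset.card_biUnion_le_card_mul
    intro m _
    rw [Nat.card_Icc]; omega
  rw [Nat.card_Icc] at hc
  rw [Nat.mul_comm (L + 13)]
  omega

lemma criterion (ε c : ℝ) (hε : 0 < ε) (hc : 0 < c)
    (h : ∃ N₀ : ℕ, ∀ N : ℕ, N₀ ≤ N → c * (N : ℝ) ≤ (((Finset.Icc 1 N).filter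
        (fun n : ℕ => Int.fract (((4 : ℝ) / 3) ^ n) < 1 - ε)).card : ℝ)) :
    ∃ c' : ℝ, 0 < c' ∧ ∃ N₀ : ℕ, ∀ N : ℕ, N₀ ≤ N → c' * (N : ℝ) <
      (((Finset.Icc 1 N).filter
        (fun n : ℕ => 1 < ⌊((4 : ℝ) / 3) ^ n⌋₊ ∧ ¬ (⌊((4 : ℝ) / 3) ^ n⌋₊).Prime)).card : ℝ) := by
  classical
  obtain ⟨N₀, h0⟩ := h
  obtain ⟨L, hL⟩ : ∃ L : ℕ, ((3:ℝ) / 4) ^ L < ε :=
    exists_pow_lt_of_lt_one hε (by norm_num)
  have hLpos : (0:ℝ) < (L:ℝ) + 13 := by positivity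
  obtain ⟨K, hK⟩ := exists_nat_gt ((2 * (c * (L + 3) + 15)) / c)
  refine ⟨c / (2 * (L + 13)), by positivity, N₀ + K + L + 12, ?_⟩
  intro M hM
  obtain ⟨N, rfl⟩ : ∃ N, M = N + (L + 12) := ⟨M - (L + 12), by omega⟩
  have hcount := count L N
  have hN := h0 (N + 9) (by omega)
  set S := (Finset.Icc 1 (N + (L + 12))).filter
        (fun n : ℕ => 1 < ⌊((4 : ℝ) / 3) ^ n⌋₊ ∧ ¬ (⌊((4 : ℝ) / 3) ^ n⌋₊).Prime) with hS
  set P := (Finset.Icc 1 (N + 9)).filter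
        (fun n : ℕ => 1 - ((3 : ℝ) / 4) ^ L ≤ Int.fract (((4 : ℝ) / 3) ^ n)) with hP
  set Q := (Finset.Icc 1 (N + 9)).filter
        (fun n : ℕ => Int.fract (((4 : ℝ) / 3) ^ n) < 1 - ε) with hQ
  have hdisj : P.card + Q.card ≤ N + 9 := by
    rw [← Finset.card_union_of_disjoint]
    · calc (P ∪ Q).card ≤ (Finset.Icc 1 (N + 9)).card := by
            apply Finset.card_le_card
            intro x hx
            rw [Finset.mem_union, hP, hQ, Finset.mem_filter, Finset.mem_filter] at hx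
            rcases hx with hx | hx <;> exact hx.1
        _ = N + 9 := by rw [Nat.card_Icc]; omega
    · rw [Finset.disjoint_left]
      intro x hx hy
      rw [hP, Finset.mem_filter] at hx
      rw [hQ, Finset.mem_filter] at hy
      linarith [hx.2, hy.2]
  have r1 : (N : ℝ) ≤ 6 + P.card + (L + 13) * S.card := by exact_mod_cast hcount
  have r2 : (P.card : ℝ) + Q.card ≤ N + 9 := by exact_mod_cast hdisj
  have r3 : c * ((N : ℝ) + 9) ≤ Q.card := by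
    have := hN; push_cast at this; linarith
  have r4 : (K : ℝ) ≤ N := by
    have : K ≤ N := by omega
    exact_mod_cast this
  have r5 : 2 * (c * (L + 3) + 15) < c * N := by
    rw [div_lt_iff₀ hc] at hK
    nlinarith
  have r6 : c * ((N : ℝ) + 9) - 15 ≤ (L + 13) * S.card := by linarith
  rw [div_mul_eq_mul_div, div_lt_iff₀ (by positivity)]
  push_cast
  nlinarith

lemma nine_gt (i : ℕ) (hi : 5 ≤ i) : 6 * 4 ^ (2 ^ i + 10) < 3 ^ (2 ^ (i + 1)) := by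
  have h32 : 32 ≤ 2 ^ i := by
    calc 32 = 2 ^ 5 := by norm_num
      _ ≤ 2 ^ i := Nat.pow_le_pow_right (by norm_num) hi
  have key : ∀ u : ℕ, 32 ≤ u → 6 * 4 ^ (u + 10) < 3 ^ (2 * u) := by
    intro u hu
    induction u, hu using Nat.le_induction with
    | base => norm_num
    | succ u hu ih =>
      calc 6 * 4 ^ (u + 1 + 10) = 4 * (6 * 4 ^ (u + 10)) := by ring
        _ < 9 * 3 ^ (2 * u) := by omega
        _ = 3 ^ (2 * (u + 1)) := by ring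
  have := key (2 ^ i) h32
  rwa [show 2 * 2 ^ i = 2 ^ (i + 1) by ring] at this

/-- (i) For every `n ≥ 7` some `m ≥ n` with `3^m ≤ 6·4^(n+10)` has `⌊(4/3)^m⌋` composite, in fact
divisible by `2`, `3` or `5`.  (ii) `C(N) > log N / log 2 - 6` for all `N ≥ 1`.
(iii) `N ≤ 6 + #{n ≤ N + 9 : {(4/3)^n} ≥ 1 - (3/4)^L} + (L + 13) C(N + L + 12)`.
(iv) If for some `ε > 0` the set of `n` with `{(4/3)^n} < 1 - ε` has positive lower density, then
`C(N) > c' N` for some `c' > 0` and all large `N` (the positive answer to Q1). -/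
theorem result :
    (∀ n : ℕ, 7 ≤ n → ∃ m : ℕ, n ≤ m ∧ 3 ^ m ≤ 6 * 4 ^ (n + 10) ∧
      (2 ∣ ⌊((4 : ℝ) / 3) ^ m⌋₊ ∨ 3 ∣ ⌊((4 : ℝ) / 3) ^ m⌋₊ ∨ 5 ∣ ⌊((4 : ℝ) / 3) ^ m⌋₊) ∧
      1 < ⌊((4 : ℝ) / 3) ^ m⌋₊ ∧ ¬ (⌊((4 : ℝ) / 3) ^ m⌋₊).Prime) ∧
    (∀ N : ℕ, 1 ≤ N → Real.log N / Real.log 2 - 6 <
      (((Finset.Icc 1 N).filter
        (fun n : ℕ => 1 < ⌊((4 : ℝ) / 3) ^ n⌋₊ ∧ ¬ (⌊((4 : ℝ) / 3) ^ n⌋₊).Prime)).card : ℝ)) ∧
    (∀ L N : ℕ, N ≤ 6 + ((Finset.Icc 1 (N + 9)).filter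
        (fun n : ℕ => 1 - ((3 : ℝ) / 4) ^ L ≤ Int.fract (((4 : ℝ) / 3) ^ n))).card +
      (L + 13) * ((Finset.Icc 1 (N + (L + 12))).filter
        (fun n : ℕ => 1 < ⌊((4 : ℝ) / 3) ^ n⌋₊ ∧ ¬ (⌊((4 : ℝ) / 3) ^ n⌋₊).Prime)).card) ∧
    (∀ ε c : ℝ, 0 < ε → 0 < c →
      (∃ N₀ : ℕ, ∀ N : ℕ, N₀ ≤ N → c * (N : ℝ) ≤ (((Finset.Icc 1 N).filter
        (fun n : ℕ => Int.fract (((4 : ℝ) / 3) ^ n) < 1 - ε)).card : ℝ)) →
      ∃ c' : ℝ, 0 < c' ∧ ∃ N₀ : ℕ, ∀ N : ℕ, N₀ ≤ N → c' * (N : ℝ) <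
        (((Finset.Icc 1 N).filter
          (fun n : ℕ => 1 < ⌊((4 : ℝ) / 3) ^ n⌋₊ ∧ ¬ (⌊((4 : ℝ) / 3) ^ n⌋₊).Prime)).card : ℝ)) := by
  have part1 : ∀ n : ℕ, 7 ≤ n → ∃ m : ℕ, n ≤ m ∧ 3 ^ m ≤ 6 * 4 ^ (n + 10) ∧
      (2 ∣ ⌊((4 : ℝ) / 3) ^ m⌋₊ ∨ 3 ∣ ⌊((4 : ℝ) / 3) ^ m⌋₊ ∨ 5 ∣ ⌊((4 : ℝ) / 3) ^ m⌋₊) ∧
      1 < ⌊((4 : ℝ) / 3) ^ m⌋₊ ∧ ¬ (⌊((4 : ℝ) / 3) ^ m⌋₊).Prime := by
    intro n hn
    obtain ⟨m, h1, h2, h3, h4⟩ := exists_composite n hn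
    refine ⟨m, h1, h2, ?_⟩
    rw [A_eq_floor]
    refine ⟨h4, by omega, fun hp => ?_⟩
    rcases h4 with h | h | h
    · rcases (Nat.dvd_prime hp).1 h with h | h <;> omega
    · rcases (Nat.dvd_prime hp).1 h with h | h <;> omega
    · rcases (Nat.dvd_prime hp).1 h with h | h <;> omega
  refine ⟨part1, ?_, count, criterion⟩
  intro N hN
  set S := (Finset.Icc 1 N).filter
        (fun n : ℕ => 1 < ⌊((4 : ℝ) / 3) ^ n⌋₊ ∧ ¬ (⌊((4 : ℝ) / 3) ^ n⌋₊).Prime) with hS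
  set k := Nat.log 2 N with hk
  have hk1 : 2 ^ k ≤ N := Nat.pow_log_le_self 2 (by omega)
  have hk2 : N < 2 ^ (k + 1) := Nat.lt_pow_succ_log_self (by norm_num) _
  -- pick the composites
  have hpick : ∀ i : ℕ, ∃ m : ℕ, 5 ≤ i → 2 ^ i ≤ m ∧ m < 2 ^ (i + 1) ∧
      1 < ⌊((4 : ℝ) / 3) ^ m⌋₊ ∧ ¬ (⌊((4 : ℝ) / 3) ^ m⌋₊).Prime := by
    intro i
    by_cases hi : 5 ≤ i
    · have h32 : 32 ≤ 2 ^ i := by
        calc 32 = 2 ^ 5 := by norm_num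
          _ ≤ 2 ^ i := Nat.pow_le_pow_right (by norm_num) hi
      obtain ⟨m, h1, h2, -, h3, h4⟩ := part1 (2 ^ i) (by omega)
      refine ⟨m, fun _ => ⟨h1, ?_, h3, h4⟩⟩
      exact (Nat.pow_lt_pow_iff_right (by norm_num : 1 < 3)).1 (lt_of_le_of_lt h2 (nine_gt i hi))
    · exact ⟨0, fun h => absurd h hi⟩
  choose f hf using hpick
  have hcard : (Finset.Ico 5 k).card ≤ S.card := by
    apply Finset.card_le_card_of_injOn f
    · intro i hi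
      rw [Finset.mem_coe, Finset.mem_Ico] at hi
      obtain ⟨h1, h2, h3, h4⟩ := hf i hi.1
      have h5 : 2 ^ (i + 1) ≤ 2 ^ k := Nat.pow_le_pow_right (by norm_num) (by omega)
      have h6 : 0 < 2 ^ i := by positivity
      rw [Finset.mem_coe, hS, Finset.mem_filter, Finset.mem_Icc]
      exact ⟨⟨by omega, by omega⟩, h3, h4⟩
    · intro i hi j hj hij
      rw [Finset.mem_coe, Finset.mem_Ico] at hi hj
      obtain ⟨h1, h2, -, -⟩ := hf i hi.1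
      obtain ⟨h3, h4, -, -⟩ := hf j hj.1
      rw [hij] at h1 h2
      have a1 : i < j + 1 := (Nat.pow_lt_pow_iff_right (by norm_num : 1 < 2)).1 (lt_of_le_of_lt h1 h4)
      have a2 : j < i + 1 := (Nat.pow_lt_pow_iff_right (by norm_num : 1 < 2)).1 (lt_of_le_of_lt h3 h2)
      omega
  rw [Nat.card_Ico] at hcard
  have hlog2 : 0 < Real.log 2 := Real.log_pos (by norm_num)
  have hNlog : Real.log N < (k + 1 : ℝ) * Real.log 2 := by
    have h1 : Real.log N < Real.log ((2:ℝ) ^ (k + 1)) := by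
      apply Real.log_lt_log
      · exact_mod_cast hN
      · exact_mod_cast hk2
    rw [Real.log_pow] at h1
    push_cast at h1
    exact h1
  have h7 : Real.log N / Real.log 2 < k + 1 := by
    rw [div_lt_iff₀ hlog2]; exact hNlog
  have h8 : (k : ℝ) ≤ S.card + 5 := by
    have : k ≤ S.card + 5 := by omega
    exact_mod_cast this
  linarith

end Pool.Agent.Results.MP_39b49d_nt.LogManyComposites
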