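import Mathlib
import Pool.Agent.helper391_FT.Main

set_option autoImplicit false

/-!
# At least `log x` of the integers `⌊(4/3)^n⌋`, `n ≤ x`, are composite

Let `a_n = ⌊(4/3)^n⌋` and let `C(x)` be the number of the positive integers `n ≤ x` for which `a_n` is composite. The
question is whether `C(x) > c x`; known is that `C(x)` is unbounded (Forman and Shapiro). We show that
`C(x) ≥ log x` for all large `x`; more precisely, for every `n ≥ 23` one of `a_n, a_(n+1), …, a_(2n)` is composite.

Proof. If `p = a_m` and `q = a_(m+1)` are primes `≥ 7`, then `3 q = 4 p ± 1`, and the possible residues modulo 5 and signs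
are such that a run of primes begins with a phase in which the signs alternate and goes on with a phase in which
the sign is constant. In the first phase `7 p + 1` or `7 p - 1` is multiplied by `4/3` at each step, in the second one
`p + 1` or `p - 1` is. So a power of 3 whose exponent is the length of the phase divides an integer of the size of
`p`, and `log (4/3) / log 3 < 1/3`; a run that begins at `n ≥ 23` ends before `2 n`.
-/

namespace Pool.Agent.Results.MP_39b49d_nt.LogarithmicLowerBound

open Pool.Agent.helper391_FT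

/-- (1) For every `n ≥ 23` some `m` with `n ≤ m ≤ 2 n` has `⌊(4/3)^m⌋` composite. (2) For all large `N` the number of the
positive integers `n ≤ N` with `⌊(4/3)^n⌋` composite is at least `log N`. -/
theorem result :
    (∀ n : ℕ, 23 ≤ n → ∃ m : ℕ, n ≤ m ∧ m ≤ 2 * n ∧ 1 < ⌊((4 : ℝ) / 3) ^ m⌋₊ ∧
      ¬ (⌊((4 : ℝ) / 3) ^ m⌋₊).Prime) ∧
    ∃ N₀ : ℕ, ∀ N : ℕ, N₀ ≤ N → Real.log N ≤
      (((Finset.Icc 1 N).filter
        (fun n : ℕ => 1 < ⌊((4 : ℝ) / 3) ^ n⌋₊ ∧ ¬ (⌊((4 : ℝ) / 3) ^ n⌋₊).Prime)).card : ℝ) := by
  refine ⟨fun n hn => ?_, main⟩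
  obtain ⟨m, h1, h2, h3⟩ := window n hn
  have h4 : 7 ≤ a m := a_large m (by omega)
  have h5 : 1 < a m := by omega
  exact ⟨m, h1, h2, h5, h3⟩

end Pool.Agent.Results.MP_39b49d_nt.LogarithmicLowerBound
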